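import Pool.Agent.helper64.NQ.Spec

/-!
# Row `nq:UPW` of MP_baa4d7: from `U = ⊤` to all `U`
-/

set_option autoImplicit false

namespace Pool.Agent.NQ

open Pool.Agent.helper58.DC Pool.Agent.DI Pool.Agent.DR

theorem UPW (hD13 : D13_stmt) (hRE : RE_stmt) (hST : ST_stmt) (hD6 : D6_stmt) : UPW_stmt := by
  intro p _ M hM hpM G E A _ _ _ _ _ X χ hχ hPD hU hT d
  have hfA : Finite A := Finite.of_surjective X.proj X.proj_surjective
  have hsub : ∀ (U : Subgroup A), U ≠ ⊤ → ∀ d' : ℤ,
      ∑ᶠ V : {V : Subgroup A // U ≤ V}, altSum X p M χ d' V.1 = 0 := by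
    intro U hUt d'
    rw [← hRE G E A X p M χ hχ d' U]
    exact hU U hUt d'
  have htop : ∀ d' : ℤ, altSum X p M χ d' ⊤ = 0 := by
    intro d'
    by_cases hS : Stable X M χ
    · rcases le_or_gt d' 0 with hd | hd
      · exact hD6 G E A X p M hM hpM χ hχ hPD d' hd ⊤
      · exact hT hS d' hd
    · by_contra hne
      exact hS (hST G E A X p M χ hχ d' hne)
  refine hD13 A (fun V => altSum X p M χ d V) fun U => ?_
  by_cases hUt : U = ⊤
  · subst hUt
    rw [FST_top (fun V => altSum X p M χ d V)]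
    exact htop d
  · exact hsub U hUt d

end Pool.Agent.NQ
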